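import Mathlib
import Pool.Graph.R_pool_sql_team_seeded_64922ed1.X21.Yg.Y3
import Pool.Graph.R_pool_sql_team_seeded_c8625f6e.K4H74.ST.Inv

/-!
# The characters of the symmetric groups are integral combinations of permutation characters
-/

set_option autoImplicit false
set_option linter.unusedSectionVars false

namespace Pool.Agent.H518.SY

open Pool.Agent.H541R3.ART Pool.Agent.R389 Pool.Agent.X21.Yg Pool.Agent.W446.AS Finset Equiv

/-- integral combinations of the permutation characters -/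
def PC (G : Type) [Group G] : AddSubgroup (G → ℂ) :=
  AddSubgroup.closure {f | ∃ H : Subgroup G, f = ind H (fun _ => 1)}

lemma decomp_of_mult {G : Type} [Group G] [Finite G] {U : Subgroup G} {m : (G → ℂ) → ℕ}
    (hm : Mult U 1 m) : ind U (fun _ => (1 : ℂ)) = ∑ χ ∈ irrF G, m χ • χ := by
  classical
  have : Fintype U := Fintype.ofFinite U
  have h1 : ∀ χ ∈ Irr G, pr (ind U (fun _ => (1 : ℂ))) χ = m χ := by
    intro χ hχ
    have hm' := hm χ hχ
    rw [frob U _ (Irr.conj hχ), pr_comm, pr_eq]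
    rw [finsum_eq_sum_of_fintype] at hm'
    simp only [MonoidHom.one_apply, inv_one, Units.val_one, mul_one] at hm' ⊢
    rw [hm']
    have h3 : (Nat.card U : ℂ) ≠ 0 := card_ne
    field_simp
  have h2 := IsDecomp.of_pr (m := m) (ind_class _ _) h1
  funext g
  rw [h2 g, finsum_irr (fun χ => (m χ : ℂ) * χ g), Finset.sum_apply]
  refine Finset.sum_congr rfl fun χ _ => ?_
  rw [Pi.smul_apply, nsmul_eq_mul]

variable {n : ℕ} {μ ν : YoungDiagram}

/-- the multiplicities are unique -/
lemma mult_unique {G : Type} [Group G] [Finite G] {U : Subgroup G} {ψ : U →* ℂˣ}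
    {m m' : (G → ℂ) → ℕ} (h : Mult U ψ m) (h' : Mult U ψ m') {χ : G → ℂ} (hχ : χ ∈ Irr G) :
    m χ = m' χ := by
  have h1 := (h χ hχ).symm.trans (h' χ hχ)
  have h2 : (Nat.card U : ℂ) ≠ 0 := by exact_mod_cast Nat.card_pos.ne'
  exact_mod_cast mul_right_cancel₀ h2 h1

lemma belongs_unique {T : Fin n ≃ μ.cells} {χ χ' : Perm (Fin n) → ℂ} (h : Belongs T χ)
    (h' : Belongs T χ') : χ' = χ := by
  obtain ⟨hχ, a, b, ha, hb, ha0, hb0, hu⟩ := h
  obtain ⟨hχ', a', b', ha', hb', ha0', hb0', hu'⟩ := h'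
  by_contra hne
  rcases hu χ' hχ' hne with h1 | h1
  · exact ha0' (by rw [← mult_unique ha ha' hχ', h1])
  · exact hb0' (by rw [← mult_unique hb hb' hχ', h1])

lemma mult_one {T : Fin n ≃ μ.cells} {χ : Perm (Fin n) → ℂ} (h : Belongs T χ)
    {a : (Perm (Fin n) → ℂ) → ℕ} (ha : Mult (Young (rw_ T)) 1 a) : a χ = 1 := by
  classical
  obtain ⟨hχ, a', b, ha', hb, ha0, hb0, -⟩ := h
  rw [← mult_unique ha ha' hχ] at ha0
  have h := inner_young T T ha hb
  obtain ⟨h1, h2⟩ := card_self T
  have hH : 0 < Nat.card (Young (rw_ T)) := Nat.card_pos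
  have hK : 0 < Nat.card (Young (cl_ T)) := Nat.card_pos
  rw [← h, mul_assoc] at h2
  have hle : ∑ χ ∈ irrF (Perm (Fin n)), a χ * b χ ≤ 1 := by
    by_contra h3
    push Not at h3
    have h4 : 2 * (Nat.card (Young (rw_ T)) * Nat.card (Young (cl_ T)))
        ≤ (∑ χ ∈ irrF (Perm (Fin n)), a χ * b χ) *
          (Nat.card (Young (rw_ T)) * Nat.card (Young (cl_ T))) :=
      Nat.mul_le_mul_right _ h3
    have h5 : 0 < Nat.card (Young (rw_ T)) * Nat.card (Young (cl_ T)) := Nat.mul_pos hH hK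
    omega
  have h3 : a χ * b χ ≤ ∑ x ∈ irrF (Perm (Fin n)), a x * b x :=
    Finset.single_le_sum (f := fun x => a x * b x) (fun _ _ => Nat.zero_le _) (mem_irrF.mpr hχ)
  have h4 : a χ * 1 ≤ a χ * b χ := Nat.mul_le_mul_left _ (Nat.pos_of_ne_zero hb0)
  omega

/-- a constituent of the permutation character belongs to a larger diagram -/
lemma dom_of_mult {T : Fin n ≃ μ.cells} {T' : Fin n ≃ ν.cells} {χ : Perm (Fin n) → ℂ}
    {a : (Perm (Fin n) → ℂ) → ℕ} (ha : Mult (Young (rw_ T)) 1 a) (ha0 : a χ ≠ 0)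
    (h' : Belongs T' χ) (k : ℕ) : rows μ k ≤ rows ν k := by
  classical
  obtain ⟨hχ, -, b, -, hb, -, hb0, -⟩ := h'
  have h1 := inner_young T T' ha hb
  have hH : 0 < Nat.card (Young (rw_ T)) := Nat.card_pos
  have hK : 0 < Nat.card (Young (cl_ T')) := Nat.card_pos
  have hpos : 0 < ∑ χ ∈ irrF (Perm (Fin n)), a χ * b χ := by
    have h2 : a χ * b χ ≤ ∑ x ∈ irrF (Perm (Fin n)), a x * b x :=
      Finset.single_le_sum (f := fun x => a x * b x) (fun _ _ => Nat.zero_le _) (mem_irrF.mpr hχ)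
    have h3 : 0 < a χ * b χ := Nat.mul_pos (Nat.pos_of_ne_zero ha0) (Nat.pos_of_ne_zero hb0)
    omega
  have h4 : 0 < (univ.filter fun g : Perm (Fin n) =>
      Function.Injective fun x => (rw_ T (g⁻¹ x), cl_ T' x)).card := by
    rw [← h1]
    positivity
  obtain ⟨g, hg⟩ := Finset.card_pos.mp h4
  exact dom T T' g⁻¹ (Finset.mem_filter.mp hg).2 k

/-- the partitions -/
abbrev Prt (n : ℕ) : Type := (Fintype.card (Fin n)).Partition

/-- the labelling of the diagram -/
noncomputable def Tp (p : Prt n) : Fin n ≃ (diag p).cells :=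
  Fintype.equivOfCardEq (by rw [Fintype.card_fin, Fintype.card_coe, card_diag])

theorem irr_belongs' {χ : Perm (Fin n) → ℂ} (hχ : χ ∈ Irr (Perm (Fin n))) :
    ∃ p : Prt n, Belongs (Tp p) χ := by
  classical
  have hT2 : ∀ p : Prt n, ∃ χ, Belongs (Tp p) χ := fun p => exists_belongs _
  choose f hf using hT2
  let F : Prt n → Irr (Perm (Fin n)) := fun p => ⟨f p, (hf p).1⟩
  have hinj : Function.Injective F := by
    intro p q h
    have h1 : f p = f q := congrArg Subtype.val h
    have h2 := hf p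
    rw [h1] at h2
    exact diag_inj (eq_of_belongs h2 (hf q))
  have hfin : Finite (Irr (Perm (Fin n))) := (irr_finite (G := Perm (Fin n))).to_subtype
  have h1 : Nat.card (Irr (Perm (Fin n))) ≤ Nat.card (Prt n) := by
    refine card_irr_le.trans ?_
    let c : ConjClasses (Perm (Fin n)) → Prt n := fun x => (Quotient.out x).partition
    refine Nat.card_le_card_of_injective c ?_
    intro x y hxy
    have h2 : IsConj (Quotient.out x) (Quotient.out y) := Perm.partition_eq_of_isConj.mpr hxy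
    rw [← ConjClasses.mk_eq_mk_iff_isConj] at h2
    have h3 : ConjClasses.mk (Quotient.out x) = x := Quotient.out_eq x
    have h4 : ConjClasses.mk (Quotient.out y) = y := Quotient.out_eq y
    rw [h3, h4] at h2
    exact h2
  have hsurj : Function.Surjective F := by
    have hb := (Nat.bijective_iff_injective_and_card F).mpr
      ⟨hinj, le_antisymm (Nat.card_le_card_of_injective F hinj) h1⟩
    exact hb.2
  obtain ⟨p, hp⟩ := hsurj ⟨χ, hχ⟩
  refine ⟨p, ?_⟩
  have h2 : f p = χ := congrArg Subtype.val hp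
  rw [← h2]
  exact hf p

/-- the (reversed) strict dominance order -/
def Dm (q p : Prt n) : Prop := (∀ k, rows (diag p) k ≤ rows (diag q) k) ∧ q ≠ p

lemma wf_Dm : WellFounded (Dm (n := n)) := by
  have h1 : IsTrans (Prt n) Dm := ⟨by
    rintro a b c ⟨h1, h2⟩ ⟨h3, h4⟩
    refine ⟨fun k => (h3 k).trans (h1 k), ?_⟩
    rintro rfl
    exact h2 (diag_inj (eq_of_rows fun k => le_antisymm (h3 k) (h1 k)))⟩
  have h2 : Std.Irrefl (Dm (n := n)) := ⟨fun a h => h.2 rfl⟩
  exact Finite.wellFounded_of_trans_of_irrefl _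

theorem belongs_mem (p : Prt n) : ∀ χ, Belongs (Tp p) χ → χ ∈ PC (Perm (Fin n)) := by
  classical
  induction p using wf_Dm.induction with
  | _ p ih =>
    intro χ hχ
    obtain ⟨a, ha⟩ := exists_Mult (Young (rw_ (Tp p))) (1 : Young (rw_ (Tp p)) →* ℂˣ)
    have h1 := decomp_of_mult ha
    rw [← Finset.add_sum_erase _ _ (mem_irrF.mpr hχ.1), mult_one hχ ha, one_smul] at h1
    have h2 : χ = ind (Young (rw_ (Tp p))) (fun _ => (1 : ℂ))
        - ∑ χ' ∈ (irrF (Perm (Fin n))).erase χ, a χ' • χ' := by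
      rw [h1, add_sub_cancel_right]
    rw [h2]
    refine sub_mem (AddSubgroup.subset_closure ⟨_, rfl⟩) (sum_mem fun χ' hχ' => ?_)
    obtain ⟨hne, hmem⟩ := Finset.mem_erase.mp hχ'
    by_cases h0 : a χ' = 0
    · rw [h0, zero_smul]
      exact zero_mem _
    · obtain ⟨q, hq⟩ := irr_belongs' (mem_irrF.mp hmem)
      refine nsmul_mem (ih q ⟨fun k => dom_of_mult ha h0 hq k, ?_⟩ χ' hq) _
      rintro rfl
      exact hne (belongs_unique hχ hq)

/-- **The characters of the symmetric groups are integral combinations of permutation characters.** -/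
theorem virt_mem {f : Perm (Fin n) → ℂ} (hf : Virt f) : f ∈ PC (Perm (Fin n)) := by
  have h1 : AddSubgroup.closure (Irr (Perm (Fin n))) ≤ PC (Perm (Fin n)) := by
    rw [AddSubgroup.closure_le]
    intro χ hχ
    obtain ⟨p, hp⟩ := irr_belongs' hχ
    exact belongs_mem p χ hp
  exact h1 hf

/-- transport -/
lemma PC.comp {G Y : Type} [Group G] [Finite G] [Group Y] [Finite Y] (e : G ≃* Y) {f : Y → ℂ}
    (hf : f ∈ PC Y) : (fun g => f (e g)) ∈ PC G := by
  let Φ : (Y → ℂ) →+ (G → ℂ) := AddMonoidHom.mk' (fun f g => f (e g)) (fun a b => rfl)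
  have h1 : PC Y ≤ (PC G).comap Φ := by
    rw [PC, AddSubgroup.closure_le]
    rintro f ⟨H, rfl⟩
    rw [SetLike.mem_coe, AddSubgroup.mem_comap]
    have h2 := ind_comap (π := e.toMonoidHom) e.surjective H (fun _ => (1 : ℂ))
    exact AddSubgroup.subset_closure ⟨_, h2⟩
  exact h1 hf

/-- characters of groups isomorphic to symmetric groups -/
theorem char_mem {G : Type} [Group G] [Finite G] (e : G ≃* Perm (Fin n)) {f : G → ℂ}
    (hf : Pool.Agent.K4H74.ST.IsChar f) : f ∈ PC G := by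
  have h1 : Virt (fun y => f (e.symm y)) := by
    obtain ⟨V, _, _, _, ρ, rfl⟩ := hf
    exact Pool.Agent.K4H74.ST.IsChar.virt
      ⟨V, inferInstance, inferInstance, inferInstance, ρ.comp e.symm.toMonoidHom, rfl⟩
  have h2 := PC.comp e (virt_mem h1)
  simpa using h2

end Pool.Agent.H518.SY
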