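import Mathlib
import Pool.Agent.H518.SY.Sym
import Pool.Graph.R_pool_sql_team_seeded_c8625f6e.K4H74.SC.Wrap

/-!
# Inductive invariants and extensions which come from symmetric groups

All values of an inductive invariant at the characters of such extensions are products of powers of
the values at trivial characters.
-/

set_option autoImplicit false
set_option linter.unusedSectionVars false

namespace Pool.Agent.H518.SY

open NumberField Pool.Agent.K4H74.ST Pool.Agent.R389 Pool.Agent.K4H74

section
variable {K L : Type} [Field K] [NumberField K] [Field L] [NumberField L] [Algebra K L]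

/-- the product of the powers of the values of `A` at the trivial characters of the fields `F` -/
noncomputable def zp {M : Type} [CommGroup M] (A : ArtinInvariant M)
    (a : IntermediateField K L →₀ ℤ) : M :=
  a.prod fun F e => A.val F F (fun _ => 1) ^ e

section zp
variable {M : Type} [CommGroup M] (A : ArtinInvariant M)

lemma zp_zero : zp A (0 : IntermediateField K L →₀ ℤ) = 1 := Finsupp.prod_zero_index

lemma zp_add (a b : IntermediateField K L →₀ ℤ) : zp A (a + b) = zp A a * zp A b :=
  Finsupp.prod_add_index' (fun _ => zpow_zero _) (fun _ _ _ => zpow_add _ _ _)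

lemma zp_neg (a : IntermediateField K L →₀ ℤ) : zp A (-a) = (zp A a)⁻¹ := by
  have h := zp_add A a (-a)
  rw [add_neg_cancel, zp_zero] at h
  exact (inv_eq_of_mul_eq_one_right h.symm).symm

lemma zp_single (F : IntermediateField K L) : zp A (Finsupp.single F 1) = A.val F F (fun _ => 1) := by
  unfold zp
  rw [Finsupp.prod_single_index (zpow_zero _), zpow_one]

end zp

variable [IsGalois K L]

/-- the value at `f` of every inductive invariant is the same product of powers of values at trivial
characters -/
def Rel (f : (L ≃ₐ[K] L) → ℂ) : Prop :=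
  ∃ a : IntermediateField K L →₀ ℤ, ∀ (M : Type) [CommGroup M] (A : ArtinInvariant M),
    Val A K L f (zp A a)

/-- the functions of this kind -/
def RelG (K L : Type) [Field K] [NumberField K] [Field L] [NumberField L] [Algebra K L]
    [IsGalois K L] : AddSubgroup ((L ≃ₐ[K] L) → ℂ) where
  carrier := {f | Rel f}
  zero_mem' := ⟨0, fun M _ A => by rw [zp_zero]; exact Val.zero A⟩
  add_mem' := by
    rintro f g ⟨a, ha⟩ ⟨b, hb⟩
    exact ⟨a + b, fun M _ A => by rw [zp_add]; exact (ha M A).add A (hb M A)⟩
  neg_mem' := by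
    rintro f ⟨a, ha⟩
    exact ⟨-a, fun M _ A => by rw [zp_neg]; exact (ha M A).neg A⟩

lemma val_triv {M : Type} [CommGroup M] (A : ArtinInvariant M) :
    A.val K L (lc 1) = A.val K K (fun _ => 1) := by
  have h := A.val_infl K K L (lc 1) (IsChar.lc 1)
  have h1 : (fun g => lc (1 : (K ≃ₐ[K] K) →* ℂˣ) (AlgEquiv.restrictNormalHom K g))
      = lc (1 : (L ≃ₐ[K] L) →* ℂˣ) := rfl
  have h2 : lc (1 : (K ≃ₐ[K] K) →* ℂˣ) = fun _ => 1 := by
    funext g
    simp [lc]
  rw [h1, h2] at h
  exact h

lemma rel_ind (H : Subgroup (L ≃ₐ[K] L)) : Rel (ind H (fun _ => (1 : ℂ))) := by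
  have hfin : FiniteDimensional K L := Module.Finite.of_restrictScalars_finite ℚ K L
  refine ⟨Finsupp.single (IntermediateField.fixedField H) 1, fun M _ A => ?_⟩
  have h1 : ind H (fun _ => (1 : ℂ)) = ind H (fun h => (((1 : H →* ℂˣ) h : ℂˣ) : ℂ)) := by
    congr 1
  have h2 : ind H (fun h => (((1 : H →* ℂˣ) h : ℂˣ) : ℂ))
      = indChar K (IntermediateField.fixedField H) L (lc 1) := ind_fixed H _
  have h3 : IsChar (ind H (fun _ => (1 : ℂ))) := by
    rw [h1]
    exact IsChar.ind_lin H 1
  have h4 := Val.of_char A h3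
  rw [h1, h2, A.val_ind K (IntermediateField.fixedField H) L (lc 1) (IsChar.lc 1), val_triv] at h4
  rw [zp_single, h1, h2]
  exact h4

lemma PC_le : PC (L ≃ₐ[K] L) ≤ RelG K L := by
  rw [PC, AddSubgroup.closure_le]
  rintro f ⟨H, rfl⟩
  exact rel_ind H

/-- **The characters of the extensions with symmetric groups** -/
theorem rel_char {n : ℕ} (e : (L ≃ₐ[K] L) ≃* Equiv.Perm (Fin n)) {f : (L ≃ₐ[K] L) → ℂ}
    (hf : IsChar f) : Rel f := by
  have hfin : FiniteDimensional K L := Module.Finite.of_restrictScalars_finite ℚ K L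
  exact PC_le (char_mem e hf)

/-- **The characters of the layers of the extensions with symmetric groups** -/
theorem rel_layer {n : ℕ} (e : (L ≃ₐ[K] L) ≃* Equiv.Perm (Fin n)) (F : IntermediateField K L)
    {χ : (L ≃ₐ[F] L) → ℂ} (hχ : IsChar χ) :
    ∃ a : IntermediateField K L →₀ ℤ, ∀ (M : Type) [CommGroup M] (A : ArtinInvariant M),
      A.val F L χ = zp A a := by
  obtain ⟨a, ha⟩ := rel_char e (SC.isChar_indChar (K := K) hχ)
  refine ⟨a, fun M _ A => ?_⟩
  rw [← A.val_ind K F L χ hχ]
  exact (Val.of_char A (SC.isChar_indChar (K := K) hχ)).unique A (ha M A)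

end

section log

open Classical in
/-- The logarithms of the Artin L-functions are an inductive invariant. -/
noncomputable def logInv : ArtinInvariant (Multiplicative (ℂ → ℂ)) where
  val K L _ _ _ _ _ _ χ := Multiplicative.ofAdd fun s =>
    if 1 < s.re then ∑' x, SC.logTerm K L χ s x else 0
  val_add K L _ _ _ _ _ _ χ χ' _ _ := by
    rw [← ofAdd_add]
    congr 1
    funext s
    rw [Pi.add_apply]
    split_ifs with hs
    · obtain ⟨l, hl⟩ := SC.logTerm_summable (K := K) (L := L) χ hs
      obtain ⟨l', hl'⟩ := SC.logTerm_summable (K := K) (L := L) χ' hs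
      rw [(SC.hasSum_add hl hl').tsum_eq, hl.tsum_eq, hl'.tsum_eq]
    · rw [add_zero]
  val_infl K L N _ _ _ _ _ _ _ _ _ _ _ _ χ h := by
    congr 1
    funext s
    rw [SC.logTerm_infl (K := K) (L := L) (N := N) h s]
  val_ind K F L _ _ _ _ _ _ _ _ _ _ _ _ χ h := by
    congr 1
    funext s
    split_ifs with hs
    · obtain ⟨l, hl⟩ := SC.logTerm_summable (K := F) (L := L) χ hs
      rw [(SC.hasSum_ind (K := K) (F := F) (L := L) hl).tsum_eq, hl.tsum_eq]
    · rfl

lemma logInv_val {K L : Type} [Field K] [NumberField K] [Field L] [NumberField L] [Algebra K L]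
    [IsGalois K L] (χ : (L ≃ₐ[K] L) → ℂ) {s : ℂ} (hs : 1 < s.re) :
    (Multiplicative.toAdd (logInv.val K L χ)) s = ∑' x, SC.logTerm K L χ s x := by
  change (if 1 < s.re then ∑' x, SC.logTerm K L χ s x else 0) = _
  rw [if_pos hs]

end log

end Pool.Agent.H518.SY
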