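import Pool.Agent.H518.SY.Rgl
import Pool.Agent.H511.Ex.Main

/-!
# Unramified extensions which come from symmetric groups, and Stark's conjecture
-/

set_option autoImplicit false
set_option linter.unusedSectionVars false

namespace Pool.Agent.H518.SY

open NumberField IsDedekindDomain Pool.Agent.K4H74
open Pool.Agent.Q92.AR (Unramified)

section
variable {K L : Type} [Field K] [NumberField K] [Field L] [NumberField L] [Algebra K L]

/-- unramified over the base, unramified over the intermediate fields -/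
lemma unram_tower (h : ∀ v : HeightOneSpectrum (𝓞 K), Unramified L v) (F : IntermediateField K L)
    (v : HeightOneSpectrum (𝓞 F)) : Unramified L v := by
  intro w hw hle
  refine h (w.under (𝓞 K)) w rfl (le_trans ?_ hle)
  rw [Ideal.map_le_iff_le_comap]
  intro x hx
  have h1 : algebraMap (𝓞 K) (𝓞 L) x = algebraMap (𝓞 F) (𝓞 L) (algebraMap (𝓞 K) (𝓞 F) x) := by
    apply RingOfIntegers.ext
    rfl
  rw [Ideal.mem_comap, h1]
  apply Ideal.mem_map_of_mem
  rw [← hw]
  change algebraMap (𝓞 F) (𝓞 L) (algebraMap (𝓞 K) (𝓞 F) x) ∈ w.asIdeal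
  rw [← h1]
  exact hx

/-- every group of order at most `N` is a subgroup of `S_N` -/
lemma exists_embedding (G : Type) [Group G] [Finite G] {N : ℕ} (h : Nat.card G ≤ N) :
    ∃ f : G →* Equiv.Perm (Fin N), Function.Injective f := by
  let i : G ↪ Fin N := (Finite.equivFin G).toEmbedding.trans (Fin.castLEEmb h)
  refine ⟨(Equiv.Perm.viaEmbeddingHom i).comp (MulAction.toPermHom G G), ?_⟩
  exact (Equiv.Perm.viaEmbeddingHom_injective i).comp (MulAction.toPerm_injective)

/-- every group of order at most `N` occurs in an extension with group `S_N` -/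
lemma exists_layer [IsGalois K L] {N : ℕ} (e : (L ≃ₐ[K] L) ≃* Equiv.Perm (Fin N)) (G : Type)
    [Group G] [Finite G] (h : Nat.card G ≤ N) :
    ∃ F : IntermediateField K L, Nonempty ((L ≃ₐ[F] L) ≃* G) := by
  have hfin : FiniteDimensional K L := Module.Finite.of_restrictScalars_finite ℚ K L
  obtain ⟨f, hf⟩ := exists_embedding G h
  let j : G →* (L ≃ₐ[K] L) := e.symm.toMonoidHom.comp f
  have hj : Function.Injective j := e.symm.injective.comp hf
  exact ⟨IntermediateField.fixedField j.range,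
    ⟨(IntermediateField.subgroupEquivAlgEquiv j.range).symm.trans (MonoidHom.ofInjective hj).symm⟩⟩

variable [IsGalois K L]

lemma log_prod (a : IntermediateField K L →₀ ℤ) {s : ℂ} (hs : 1 < s.re) :
    Complex.exp ((Multiplicative.toAdd (zp logInv a)) s)
      = a.prod fun E m => dedekindZeta E s ^ m := by
  unfold zp
  rw [Finsupp.prod, Finsupp.prod, toAdd_prod, Finset.sum_apply, Complex.exp_sum]
  refine Finset.prod_congr rfl fun E _ => ?_
  rw [toAdd_zpow, Pi.smul_apply, logInv_val _ hs, zsmul_eq_mul, Complex.exp_int_mul, exp_log E hs]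

lemma lead_prod {c : SK.Pair → ℂ} (hc : SK.IsLeading c) (a : IntermediateField K L →₀ ℤ) :
    ((zp (SK.leadInv hc) a : ℂˣ) : ℂ) = a.prod fun E m =>
      (-(((classNumber E : ℝ) * Units.regulator E / Units.torsionOrder E : ℝ) : ℂ)) ^ m := by
  unfold zp
  rw [Finsupp.prod, Finsupp.prod, Units.coe_prod]
  refine Finset.prod_congr rfl fun E _ => ?_
  rw [Units.val_zpow_eq_zpow_val, ← lead_one hc E]
  congr 1
  exact SK.leadInv_val hc (E := ⟨E, E⟩) (isChr_one E)

lemma inv_prod {c : SK.Pair → ℂ} (hc : SK.IsLeading c) (σ : ℂ ≃+* ℂ)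
    (a : IntermediateField K L →₀ ℤ) : zp (SK.inv hc σ) a = 1 := by
  unfold zp
  rw [Finsupp.prod]
  refine Finset.prod_eq_one fun E _ => ?_
  rw [trivOne hc σ E, one_zpow]

/-- the L-functions, the leading coefficients and Stark's conjecture -/
theorem layer_main {N : ℕ} (e : (L ≃ₐ[K] L) ≃* Equiv.Perm (Fin N)) (F : IntermediateField K L)
    (χ : SK.G ⟨F, L⟩ → ℂ) (hχ : SK.IsChr χ) :
    ∃ a : IntermediateField K L →₀ ℤ,
      (∀ s : ℂ, 1 < s.re → ∃ l : ℂ, HasSum (SK.logTerm χ s) l ∧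
        Complex.exp l = a.prod fun E m => dedekindZeta E s ^ m) ∧
      (∀ c, SK.IsLeading c → c ⟨⟨F, L⟩, χ⟩ = a.prod fun E m =>
        (-(((classNumber E : ℝ) * Units.regulator E / Units.torsionOrder E : ℝ) : ℂ)) ^ m) ∧
      ∀ c, SK.IsLeading c → ∀ σ : ℂ ≃+* ℂ, SK.Stark c σ χ := by
  have hχ' : ST.IsChar (G := L ≃ₐ[F] L) χ := SK.isChr_iff.mp hχ
  obtain ⟨a, ha⟩ := rel_layer e F hχ'
  refine ⟨a, fun s hs => ?_, fun c hc => ?_, fun c hc σ => ?_⟩
  · obtain ⟨l, hl⟩ := SC.logTerm_summable (K := F) (L := L) χ hs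
    refine ⟨l, SK.hasSum_iff.mpr hl, ?_⟩
    rw [← log_prod a hs, ← ha _ logInv]
    refine congrArg Complex.exp ?_
    exact hl.tsum_eq.symm.trans (logInv_val (K := F) (L := L) χ hs).symm
  · rw [← lead_prod hc a, ← ha _ (SK.leadInv hc)]
    exact (SK.leadInv_val hc (E := ⟨F, L⟩) hχ).symm
  · exact SK.of_val hc σ hχ ((ha _ (SK.inv hc σ)).trans (inv_prod hc σ a))

end

/-- **Existence** -/
theorem exists_main (k : Type) [Field k] [NumberField k] (N n₀ : ℕ) :
    ∃ (L : Type) (_ : Field L) (_ : NumberField L) (_ : Algebra k L) (_ : IsGalois k L)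
      (K₀ : IntermediateField k L), n₀ ≤ Module.finrank k L ∧
      Nonempty ((L ≃ₐ[K₀] L) ≃* Equiv.Perm (Fin N)) ∧
      (∀ v : HeightOneSpectrum (𝓞 K₀), Unramified L v) ∧ IsUnramifiedAtInfinitePlaces K₀ L := by
  obtain ⟨L, i1, i2, i3, h1, h2, h3⟩ := Pool.Agent.H511.Ex.main k N.factorial n₀ 1 one_pos
  obtain ⟨K₀, h4, h5, h6, -⟩ := h3 (Equiv.Perm (Fin N)) (by rw [Nat.card_perm, Nat.card_fin])
  exact ⟨L, i1, i2, i3, h1, K₀, h2, h4, h5, h6⟩

end Pool.Agent.H518.SY
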