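import Pool.Agent.H896.SI.Cn0
import Pool.Agent.H518.SY.Inv

/-!
# The Dedekind zeta function at `s = 0`, in terms of the trivial character

The functional equation and the value of the completed zeta function are taken from
`Pool.Agent.H896.SI.Cn0`.
-/

set_option autoImplicit false
set_option linter.unusedSectionVars false

namespace Pool.Agent.H518.SY

open NumberField IsDedekindDomain Filter Topology Complex
open Pool.Agent.Q92.AR (Continues cont cont_spec zeta_eq_LP LP lterm)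
open Pool.Agent.Q92.PA (pl)
open Pool.Agent.H896.SI
open Pool.Agent.K4H74
open scoped ComplexConjugate

/-- **The class number formula at `s = 0`.** -/
theorem zeta_lead (F : Type) [Field F] [NumberField F] :
    ∃ f : ℂ → ℂ, (∀ z, MeromorphicAt f z) ∧ (∀ s : ℂ, 1 < s.re → f s = dedekindZeta F s) ∧
      meromorphicTrailingCoeffAt f 0 =
        -(((classNumber F : ℝ) * Units.regulator F / Units.torsionOrder F : ℝ) : ℂ) := by
  classical
  obtain ⟨U, hU1, hU2, hU3⟩ := zeta_fe1 F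
  have hU4 := U_one F hU1 hU3
  have hpos : (0 : ℝ) < 2 ^ pl F * (Units.regulator F : ℝ) * (classNumber F : ℝ) /
      (Units.torsionOrder F : ℝ) := by
    have a1 := Units.regulator_pos F
    have a2 : (0 : ℝ) < classNumber F := by exact_mod_cast classNumber_pos F
    have a3 : (0 : ℝ) < Units.torsionOrder F := by exact_mod_cast Units.torsionOrder_pos F
    positivity
  have hU0 : U 0 = U 1 := by
    have h1 := hU2 0
    rw [map_zero, sub_zero, hU4, conj_ofReal, ← hU4] at h1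
    exact h1
  have hU0ne : U 0 ≠ 0 := by
    rw [hU0, hU4]
    exact_mod_cast hpos.ne'
  set k := Module.finrank ℚ F - pl F with hk
  -- the continuation
  let f : ℂ → ℂ := fun s => U s * (s * (s - 1))⁻¹ * (dd F ^ (s / 2))⁻¹ *
    ((Gammaℝ s)⁻¹ ^ pl F * (Gammaℝ (s + 1))⁻¹ ^ k)
  have d1 : Differentiable ℂ fun s : ℂ => dd F ^ (s / 2) := fun s =>
    (differentiableAt_id.div_const 2).const_cpow (Or.inl (dd_ne F))
  have d1n : ∀ s : ℂ, dd F ^ (s / 2) ≠ 0 := fun s h => dd_ne F ((cpow_eq_zero_iff _ _).1 h).1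
  have d2 : Differentiable ℂ fun s : ℂ => (Gammaℝ (s + 1))⁻¹ :=
    differentiable_Gammaℝ_inv.comp (differentiable_id.add_const 1)
  have hf1 : ∀ s, MeromorphicAt f s := by
    intro s
    have e1 : MeromorphicAt U s := (hU1.analyticAt s).meromorphicAt
    have e2 : MeromorphicAt (fun s : ℂ => s * (s - 1)) s := by fun_prop
    have e3 : MeromorphicAt (fun s : ℂ => dd F ^ (s / 2)) s := (d1.analyticAt s).meromorphicAt
    have e4 : MeromorphicAt (fun s : ℂ => (Gammaℝ s)⁻¹) s :=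
      (differentiable_Gammaℝ_inv.analyticAt s).meromorphicAt
    have e5 : MeromorphicAt (fun s : ℂ => (Gammaℝ (s + 1))⁻¹) s := (d2.analyticAt s).meromorphicAt
    exact ((e1.fun_mul e2.fun_inv).fun_mul e3.fun_inv).fun_mul ((e4.fun_pow _).fun_mul (e5.fun_pow _))
  have hf2 : ∀ s : ℂ, 1 < s.re → f s = dedekindZeta F s := by
    intro s hs
    change U s * (s * (s - 1))⁻¹ * (dd F ^ (s / 2))⁻¹ *
      ((Gammaℝ s)⁻¹ ^ pl F * (Gammaℝ (s + 1))⁻¹ ^ k) = _
    rw [hU3 s hs]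
    have g1 : Gammaℝ s ≠ 0 := Gammaℝ_ne_zero_of_re_pos (by linarith)
    have g2 : Gammaℝ (s + 1) ≠ 0 := Gammaℝ_ne_zero_of_re_pos (by
      rw [add_re, one_re]; linarith)
    have g3 : s ≠ 0 := by
      intro h; rw [h, zero_re] at hs; linarith
    have g4 : s - 1 ≠ 0 := by
      intro h
      rw [sub_eq_zero.1 h, one_re] at hs; linarith
    have g5 := d1n s
    rw [inv_pow, inv_pow]
    field_simp
  -- its trailing coefficient
  let A : ℂ → ℂ := fun s => U s * (s - 1)⁻¹ * (dd F ^ (s / 2))⁻¹ *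
    ((2 * (Real.pi : ℂ) ^ (-s / 2) * Gamma (s / 2 + 1))⁻¹ ^ pl F * (Gammaℝ (s + 1))⁻¹ ^ k)
  have hG1 : ∀ s : ℂ, s ≠ 0 → (Gammaℝ s)⁻¹ =
      s * (2 * (Real.pi : ℂ) ^ (-s / 2) * Gamma (s / 2 + 1))⁻¹ := by
    intro s hs
    rw [Gammaℝ_def, Gamma_add_one _ (div_ne_zero hs two_ne_zero)]
    by_cases hz : Gamma (s / 2) = 0
    · rw [hz]; simp
    have hp : (Real.pi : ℂ) ^ (-s / 2) ≠ 0 := fun h =>
      (by exact_mod_cast Real.pi_ne_zero : (Real.pi : ℂ) ≠ 0) ((cpow_eq_zero_iff _ _).1 h).1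
    field_simp
  have hA0 : A 0 = - (U 0 / 2 ^ pl F) := by
    change U 0 * ((0 : ℂ) - 1)⁻¹ * (dd F ^ ((0 : ℂ) / 2))⁻¹ *
      ((2 * (Real.pi : ℂ) ^ (-(0 : ℂ) / 2) * Gamma ((0 : ℂ) / 2 + 1))⁻¹ ^ pl F *
        (Gammaℝ ((0 : ℂ) + 1))⁻¹ ^ k) = _
    simp only [zero_div, neg_zero, zero_add, cpow_zero, Gamma_one, Gammaℝ_one, zero_sub, inv_one,
      one_pow, mul_one, inv_pow]
    field_simp
  have hA : AnalyticAt ℂ A 0 := by
    have e1 : AnalyticAt ℂ U 0 := hU1.analyticAt 0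
    have e2 : AnalyticAt ℂ (fun s : ℂ => (s - 1)⁻¹) 0 :=
      (analyticAt_id.sub analyticAt_const).fun_inv (by simp)
    have e3 : AnalyticAt ℂ (fun s : ℂ => (dd F ^ (s / 2))⁻¹) 0 :=
      (d1.analyticAt 0).fun_inv (d1n 0)
    have e5 : AnalyticAt ℂ (fun s : ℂ => (Gammaℝ (s + 1))⁻¹) 0 := d2.analyticAt 0
    have e6 : AnalyticAt ℂ (fun s : ℂ => (2 * (Real.pi : ℂ) ^ (-s / 2) * Gamma (s / 2 + 1))) 0 := by
      have q1 : AnalyticAt ℂ (fun s : ℂ => (Real.pi : ℂ) ^ (-s / 2)) 0 := by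
        have : Differentiable ℂ fun s : ℂ => (Real.pi : ℂ) ^ (-s / 2) := fun s =>
          (differentiableAt_id.neg.div_const 2).const_cpow
            (Or.inl (by exact_mod_cast Real.pi_ne_zero))
        exact this.analyticAt 0
      have q2 : AnalyticAt ℂ (fun s : ℂ => Gamma (s / 2 + 1)) 0 := by
        have q3 : (fun s : ℂ => Gamma (s / 2 + 1)) = fun s => ((Gamma (s / 2 + 1))⁻¹)⁻¹ := by
          funext s; rw [inv_inv]
        rw [q3]
        have q4 : Differentiable ℂ fun s : ℂ => (Gamma (s / 2 + 1))⁻¹ :=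
          differentiable_one_div_Gamma.comp ((differentiable_id.div_const 2).add_const 1)
        refine (q4.analyticAt 0).fun_inv ?_
        rw [zero_div, zero_add, Gamma_one, inv_one]
        exact one_ne_zero
      exact (analyticAt_const.mul q1).mul q2
    have e7 : AnalyticAt ℂ (fun s : ℂ => (2 * (Real.pi : ℂ) ^ (-s / 2) * Gamma (s / 2 + 1))⁻¹) 0 := by
      refine e6.fun_inv ?_
      rw [neg_zero, zero_div, cpow_zero, zero_add, Gamma_one]
      norm_num
    exact ((e1.mul e2).mul e3).mul ((e7.pow _).mul (e5.pow _))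
  have hAne : A 0 ≠ 0 := by
    rw [hA0]
    exact neg_ne_zero.2 (div_ne_zero hU0ne (pow_ne_zero _ two_ne_zero))
  have hlead : meromorphicTrailingCoeffAt f 0 = A 0 := by
    refine hA.meromorphicTrailingCoeffAt_of_ne_zero_of_eq_nhdsNE (n := (pl F : ℤ) - 1) hAne ?_
    filter_upwards [self_mem_nhdsWithin] with s hs
    have hs0 : s ≠ 0 := hs
    rw [sub_zero, zpow_sub₀ hs0, zpow_natCast, zpow_one, smul_eq_mul]
    change U s * (s * (s - 1))⁻¹ * (dd F ^ (s / 2))⁻¹ *
        ((Gammaℝ s)⁻¹ ^ pl F * (Gammaℝ (s + 1))⁻¹ ^ k) = _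
    rw [hG1 s hs0, mul_pow, mul_inv]
    change _ = s ^ pl F / s * (U s * (s - 1)⁻¹ * (dd F ^ (s / 2))⁻¹ *
      ((2 * (Real.pi : ℂ) ^ (-s / 2) * Gamma (s / 2 + 1))⁻¹ ^ pl F * (Gammaℝ (s + 1))⁻¹ ^ k))
    rw [div_eq_mul_inv]
    ring
  refine ⟨f, hf1, hf2, ?_⟩
  rw [hlead, hA0, hU0, hU4]
  have ht : ((Units.torsionOrder F : ℝ) : ℂ) ≠ 0 := by
    exact_mod_cast (Units.torsionOrder_pos F).ne'
  push_cast at *
  field_simp

section frob
variable {K L : Type} [Field K] [NumberField K] [Field L] [NumberField L] [Algebra K L]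
  [IsGalois K L]

/-- the mean of the trivial character -/
lemma frobMean_one {p : Ideal (𝓞 K)} (hp : p ≠ ⊥) [p.IsPrime] (n : ℕ) :
    SC.frobMean K L (fun _ => 1) p n = 1 := by
  classical
  have : Fintype (L ≃ₐ[K] L) := Fintype.ofFinite _
  have h1 := SC.ncard_frob (K := K) (L := L) hp n
  have h2 : (SC.frobSet K L p n).ncard ≠ 0 := by
    rw [h1]
    exact mul_ne_zero SC.pr_ne (SC.ram_ne (K := K))
  have h3 : ((SC.frobSet K L p n).ncard : ℂ) ≠ 0 := by exact_mod_cast h2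
  rw [SC.frobMean, div_eq_one_iff_eq h3]
  rw [SC.frobSet_eq hp n, finsum_mem_coe_finset, Finset.sum_const, nsmul_eq_mul, mul_one,
    Set.ncard_coe_finset]

end frob

/-- the logarithm of the zeta function -/
theorem exp_log (F : Type) [Field F] [NumberField F] {s : ℂ} (hs : 1 < s.re) :
    Complex.exp (∑' x, SC.logTerm F F (fun _ => 1) s x) = dedekindZeta F s := by
  classical
  rw [zeta_eq_LP hs, LP]
  congr 1
  rw [← (Equiv.prodCongr (Equiv.refl _) Equiv.pnatEquivNat).tsum_eq]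
  refine tsum_congr fun x => ?_
  obtain ⟨v, n⟩ := x
  have := v.isPrime
  rw [SC.logTerm, frobMean_one v.ne_bot]
  change _ = lterm Set.univ (fun _ => 1) s (v, n.natPred)
  unfold lterm
  rw [if_pos (Set.mem_univ _), PNat.natPred_add_one, one_pow]

/-- the leading coefficient which belongs to the trivial character -/
theorem lead_one {c : SK.Pair → ℂ} (hc : SK.IsLeading c) (F : Type) [Field F] [NumberField F] :
    c ⟨⟨F, F⟩, fun _ => 1⟩ =
      -(((classNumber F : ℝ) * Units.regulator F / Units.torsionOrder F : ℝ) : ℂ) := by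
  obtain ⟨f, h1, h2, h3⟩ := zeta_lead F
  have h4 : SK.IsChr (fun _ : SK.G ⟨F, F⟩ => (1 : ℂ)) := by
    have h5 := SK.isChr_lin (E := ⟨F, F⟩) 1
    have h6 : SK.lin (1 : SK.G ⟨F, F⟩ →* ℂˣ) = fun _ => 1 := by
      funext g
      simp [SK.lin]
    rwa [h6] at h5
  have h5 := hc 1 (fun _ => ⟨⟨F, F⟩, fun _ => 1⟩) (fun _ => 1) f (fun _ => h4) h1 (by
    intro s hs
    have h6 := (SC.logTerm_summable (K := F) (L := F) (fun _ => 1) hs).hasSum
    refine ⟨fun _ => ∑' x, SC.logTerm F F (fun _ => 1) s x, fun _ => SK.hasSum_iff.mpr h6, ?_⟩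
    rw [h2 s hs, ← exp_log F hs]
    simp)
  rw [h3] at h5
  simpa using h5

end Pool.Agent.H518.SY
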