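import Mathlib
import Pool.Agent.H518.SY.Zet

/-!
# Stark's regulator of the trivial character, and Stark's conjecture for the trivial characters
-/

set_option autoImplicit false
set_option linter.unusedSectionVars false

namespace Pool.Agent.H518.SY

open NumberField NumberField.Units Pool.Agent.K4H74
open scoped TensorProduct Classical

section
variable {L : Type} [Field L] [NumberField L]

/-- the infinite places except one -/
abbrev Wp (L : Type) [Field L] [NumberField L] : Type :=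
  {w : InfinitePlace L // w ≠ (dirichletUnitTheorem.w₀ : InfinitePlace L)}

lemma ew_apply {k : Type} [Field k] (w v : InfinitePlace L) :
    (SC.ew k w).1 v = (if v = w then 1 else 0) - (if v = dirichletUnitTheorem.w₀ then 1 else 0) := by
  change (Pi.single w (1 : k) - Pi.single (dirichletUnitTheorem.w₀ : InfinitePlace L) (1 : k) :
    InfinitePlace L → k) v = _
  rw [Pi.sub_apply, Pi.single_apply, Pi.single_apply]

lemma ew_zero {k : Type} [Field k] :
    SC.ew k (dirichletUnitTheorem.w₀ : InfinitePlace L) = 0 := by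
  classical
  apply Subtype.ext
  funext v
  rw [ew_apply, sub_self]
  rfl

/-- coordinates on `ℂ ⊗ X` -/
noncomputable def eC : SC.XX L ℂ ≃ₗ[ℂ] (Wp L → ℂ) where
  toFun a v := a.1 v
  map_add' _ _ := rfl
  map_smul' _ _ := rfl
  invFun f := ∑ v, f v • SC.ew ℂ v.1
  left_inv a := by
    classical
    conv_rhs => rw [SC.eq_sum_ew a]
    rw [Fintype.sum_eq_add_sum_subtype_ne _ (dirichletUnitTheorem.w₀ : InfinitePlace L), ew_zero,
      smul_zero, zero_add]
  right_inv f := by
    funext u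
    change (((∑ v, f v • SC.ew ℂ v.1 : SC.XX L ℂ) : InfinitePlace L → ℂ) u) = f u
    rw [AddSubmonoidClass.coe_finsetSum, Finset.sum_apply]
    have h1 : ∀ v : Wp L, ((f v • SC.ew ℂ v.1 : SC.XX L ℂ) : InfinitePlace L → ℂ) u
        = if u = v then f v else 0 := by
      intro v
      change f v * (SC.ew ℂ v.1).1 u = _
      rw [ew_apply, if_neg u.2, sub_zero]
      by_cases h : u = v
      · rw [if_pos h, if_pos (congrArg Subtype.val h), mul_one]
      · rw [if_neg h, if_neg (fun h' => h (Subtype.ext h')), mul_zero]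
    rw [Finset.sum_congr rfl fun v _ => h1 v, Finset.sum_ite_eq, if_pos (Finset.mem_univ _)]

/-- a basis of `ℂ ⊗ X` -/
noncomputable def bC : Module.Basis (Wp L) ℂ (SC.XX L ℂ) := Module.Basis.ofEquivFun eC

lemma bC_repr (a : SC.XX L ℂ) (v : Wp L) : bC.repr a v = a.1 v := by
  rw [bC, Module.Basis.ofEquivFun_repr_apply]
  rfl

lemma bC_apply (w : Wp L) : bC w = SC.ew ℂ w.1 := by
  classical
  rw [bC, Module.Basis.coe_ofEquivFun]
  change ∑ v : Wp L, (Pi.single w (1 : ℂ) : Wp L → ℂ) v • SC.ew ℂ v.1 = _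
  rw [Finset.sum_eq_single w]
  · rw [Pi.single_eq_same, one_smul]
  · intro v _ hv
    rw [Pi.single_eq_of_ne hv, zero_smul]
  · intro h
    exact absurd (Finset.mem_univ _) h

lemma logVec_torsion (ζ : torsion L) : SC.logVec L (Additive.ofMul (ζ : (𝓞 L)ˣ)) = 0 := by
  funext w
  rw [SC.logVec_apply]
  have h1 := (mem_torsion (K := L) (x := (ζ : (𝓞 L)ˣ))).mp ζ.2 w
  change ((-((w.mult : ℝ) * Real.log (w (((ζ : (𝓞 L)ˣ) : 𝓞 L) : L))) : ℝ) : ℂ) = 0
  rw [h1]
  simp

/-- the logarithmic vectors are rational combinations of those of the fundamental units -/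
lemma lamQ_fund (z : ℚ ⊗[ℤ] Additive (𝓞 L)ˣ) : ∃ q : Fin (rank L) → ℚ, ∀ v,
    SC.lamQ L z v = ∑ i, (q i : ℂ) * SC.logVec L (Additive.ofMul (fundSystem L i)) v := by
  induction z using TensorProduct.induction_on with
  | zero => exact ⟨0, fun v => by simp⟩
  | tmul r u =>
    obtain ⟨⟨ζ, e⟩, h2, -⟩ := exist_unique_eq_mul_prod L u.toMul
    have h3 : u = Additive.ofMul (ζ : (𝓞 L)ˣ)
        + ∑ i, e i • Additive.ofMul (fundSystem L i) := by
      apply Additive.toMul.injective
      rw [toMul_add, toMul_sum, h2]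
      rfl
    refine ⟨fun i => r * e i, fun v => ?_⟩
    rw [SC.lamQ_tmul', Pi.smul_apply, h3, map_add, logVec_torsion, zero_add, map_sum,
      Finset.sum_apply, Rat.smul_def, Finset.mul_sum]
    refine Finset.sum_congr rfl fun i _ => ?_
    rw [map_smul, Pi.smul_apply, zsmul_eq_mul]
    push_cast
    ring
  | add x y hx hy =>
    obtain ⟨q, hq⟩ := hx
    obtain ⟨q', hq'⟩ := hy
    refine ⟨q + q', fun v => ?_⟩
    rw [map_add, Pi.add_apply, hq, hq', ← Finset.sum_add_distrib]
    refine Finset.sum_congr rfl fun i _ => ?_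
    rw [Pi.add_apply]
    push_cast
    ring

/-- **The determinant of the regulator map.** -/
theorem det_Lam {K : Type} [Field K] [NumberField K] [Algebra K L] (φ : SC.StarkMap K L) :
    ∃ q : ℚ, LinearMap.det φ.Lam = q * ((regulator L : ℝ) : ℂ) := by
  classical
  let e : Wp L ≃ Fin (rank L) := (equivFinRank L).symm
  choose q hq using fun w : Wp L => lamQ_fund (φ.phi (SC.ew ℚ w.1))
  let R : Matrix (Wp L) (Wp L) ℝ := Matrix.of fun i w : Wp L => (w.val.mult : ℝ) *
    Real.log (w.val (fundSystem L (e i) : L))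
  have hR : regulator L = |R.det| := by
    have h := regulator_eq_det (K := L) (dirichletUnitTheorem.w₀ : InfinitePlace L) e
    rw [h]
  let B : Matrix (Wp L) (Wp L) ℚ := Matrix.of fun u w => q w (e u)
  have h1 : LinearMap.toMatrix bC bC φ.Lam
      = (-(R.transpose.map Complex.ofRealHom)) * (B.map (Rat.castHom ℂ)) := by
    ext v w
    rw [LinearMap.toMatrix_apply, bC_repr, bC_apply, ← SC.ew_toC, φ.spec, hq, Matrix.mul_apply,
      ← e.sum_comp]
    refine Finset.sum_congr rfl fun u _ => ?_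
    rw [SC.logVec_apply, Matrix.neg_apply, Matrix.map_apply, Matrix.map_apply,
      Matrix.transpose_apply]
    change (q w (e u) : ℂ) * ((-((v.1.mult : ℝ) * Real.log (v.1 (fundSystem L (e u) : L))) : ℝ) : ℂ)
      = -(((v.1.mult : ℝ) * Real.log (v.1 (fundSystem L (e u) : L)) : ℝ) : ℂ) * (q w (e u) : ℂ)
    push_cast
    ring
  have h2 : LinearMap.det φ.Lam = (-1) ^ Fintype.card (Wp L) * ((R.det : ℝ) : ℂ) * (B.det : ℂ) := by
    rw [← LinearMap.det_toMatrix bC, h1, Matrix.det_mul, Matrix.det_neg]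
    have e1 : (R.transpose.map Complex.ofRealHom).det = ((R.det : ℝ) : ℂ) := by
      rw [← RingHom.mapMatrix_apply, ← RingHom.map_det, Matrix.det_transpose]
      rfl
    have e2 : (B.map (Rat.castHom ℂ)).det = (B.det : ℂ) := by
      rw [← RingHom.mapMatrix_apply, ← RingHom.map_det]
      rfl
    rw [e1, e2]
  rcases abs_choice R.det with h3 | h3
  · refine ⟨(-1) ^ Fintype.card (Wp L) * B.det, ?_⟩
    rw [h2, hR, h3]
    push_cast
    ring
  · refine ⟨-((-1) ^ Fintype.card (Wp L) * B.det), ?_⟩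
    rw [h2, hR, h3]
    push_cast
    ring

end

section
variable {K : Type} [Field K] [NumberField K]

lemma aut_one (g : K ≃ₐ[K] K) : g = 1 := by
  ext x
  exact g.commutes x

/-- Stark's regulator of the trivial character -/
theorem reg_one {φ : SC.StarkMap K K} {r : ℂ} (h : SC.IsReg φ (fun _ => 1) r) :
    ∃ q : ℚ, r = q * ((regulator K : ℝ) : ℂ) := by
  obtain ⟨q, hq⟩ := det_Lam φ
  refine ⟨q, ?_⟩
  rw [← hq]
  have h1 := h.detOf
  have h2 : SC.DetOf (SC.tseq (K := K) (L := K) φ.Lam (fun _ => 1)) (LinearMap.det φ.Lam) := by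
    refine ⟨SC.XX K ℂ, inferInstance, inferInstance, inferInstance, φ.Lam, fun k => ?_, rfl⟩
    have hu : Unique (K ≃ₐ[K] K) := { default := 1, uniq := aut_one }
    unfold SC.tseq
    rw [finsum_unique, Nat.card_unique, Nat.cast_one, inv_one, one_mul, one_mul]
    have h3 : ∀ g : K ≃ₐ[K] K, SC.XRep K K ℂ g = 1 := fun g => by
      rw [aut_one g, map_one]
    rw [h3]
    rfl
  exact (h1.unique h2).symm

lemma isChr_one (K : Type) [Field K] [NumberField K] :
    SK.IsChr (fun _ : SK.G ⟨K, K⟩ => (1 : ℂ)) := by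
  have h5 := SK.isChr_lin (E := ⟨K, K⟩) 1
  have h6 : SK.lin (1 : SK.G ⟨K, K⟩ →* ℂˣ) = fun _ => 1 := by
    funext g
    simp [SK.lin]
  rwa [h6] at h5

/-- the numbers `A` of the trivial character are rational -/
theorem isA_one {c : SK.Pair → ℂ} (hc : SK.IsLeading c) (K : Type) [Field K] [NumberField K]
    {φ : SC.StarkMap K K} {a : ℂ} (h : SC.IsA (SK.leadInv hc) φ (fun _ => 1) a) :
    ∃ q : ℚ, a = q := by
  obtain ⟨r, hr, rfl⟩ := h
  obtain ⟨q, hq⟩ := reg_one hr
  have h3 : (((SK.leadInv hc).val K K (fun _ => 1) : ℂˣ) : ℂ)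
      = -(((classNumber K : ℝ) * regulator K / torsionOrder K : ℝ) : ℂ) := by
    rw [← lead_one hc K]
    exact SK.leadInv_val hc (E := ⟨K, K⟩) (isChr_one K)
  refine ⟨-(q * torsionOrder K / classNumber K), ?_⟩
  rw [h3, hq]
  have e1 : ((regulator K : ℝ) : ℂ) ≠ 0 := by exact_mod_cast (regulator_pos K).ne'
  have e2 : (classNumber K : ℂ) ≠ 0 := by exact_mod_cast (classNumber_pos K).ne'
  have e3 : (torsionOrder K : ℂ) ≠ 0 := by exact_mod_cast (torsionOrder_pos K).ne'
  push_cast
  field_simp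

lemma stark_one {c : SK.Pair → ℂ} (hc : SK.IsLeading c) (σ : ℂ ≃+* ℂ) (K : Type) [Field K]
    [NumberField K] : SC.Stark (SK.leadInv hc) σ K K (fun _ => 1) := by
  intro φ a a' ha ha'
  have h1 : (fun g : K ≃ₐ[K] K => σ ((fun _ => (1 : ℂ)) g)) = fun _ => 1 := by
    funext g
    exact map_one σ
  rw [h1] at ha'
  obtain ⟨q, hq⟩ := isA_one hc K ha
  obtain ⟨r, hr, h2⟩ := ha
  obtain ⟨r', hr', h3⟩ := ha'
  have h4 : r' = r := hr.unique hr'
  rw [h4] at h3
  rw [h3, ← h2, hq, map_ratCast]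

/-- **Stark's conjecture for the trivial characters** -/
theorem trivOne {c : SK.Pair → ℂ} (hc : SK.IsLeading c) (σ : ℂ ≃+* ℂ) :
    ST.TrivOne (SK.inv hc σ) := by
  intro K _ _
  exact (SC.stark_iff _ σ (SK.isChr_iff.mp (isChr_one K))).mp (stark_one hc σ K)

end

end Pool.Agent.H518.SY
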